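import Mathlib

set_option autoImplicit false

/-!
# Families over the translation of the affine line (MP_91e6de): definitions for the final
statements

`K[x]` is `Polynomial K`; a polynomial in `y = (y_0, ..., y_m)` with coefficients in `K[x]` is an
element of `MvPolynomial (Fin (m + 1)) (Polynomial K)`.
-/

namespace Pool.Agent.Work.MP_91e6de_nt.KS

open MvPolynomial

section

variable {m : ℕ} {K : Type} [Field K]

/-- The value at `(x, y)` of a polynomial in `y` with coefficients in `K[x]`. -/
noncomputable def val (x : K) (y : Fin (m + 1) → K)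
    (G : MvPolynomial (Fin (m + 1)) (Polynomial K)) : K :=
  eval y (map (Polynomial.evalRingHom x) G)

/-- The polynomial `G (x + c, y)`. -/
noncomputable def shift (c : K) (G : MvPolynomial (Fin (m + 1)) (Polynomial K)) :
    MvPolynomial (Fin (m + 1)) (Polynomial K) :=
  map (Polynomial.compRingHom (Polynomial.X + Polynomial.C c)) G

/-- The iterates of `f (x, y) = (x + b, F (x, y))`: `f^n (x, y) = (x + n b, iter b F n (x, y))`,
with `iter b F (n + 1) (x, y) = F (x + n b, iter b F n (x, y))`. -/
noncomputable def iter (b : K) (F : Fin (m + 1) → MvPolynomial (Fin (m + 1)) (Polynomial K)) :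
    ℕ → Fin (m + 1) → MvPolynomial (Fin (m + 1)) (Polynomial K)
  | 0 => X
  | n + 1 => fun i => bind₁ (iter b F n) (shift ((n : K) * b) (F i))

/-- `(x n, y n)` is an orbit of `f (x, y) = (x + b, F (x, y))` on `𝔸¹ × ℙ^m` (homogeneous
coordinates `y n`, never all zero: all iterates are defined). -/
structure IsOrbit (b : K) (F : Fin (m + 1) → MvPolynomial (Fin (m + 1)) (Polynomial K))
    (x : ℕ → K) (y : ℕ → Fin (m + 1) → K) : Prop where
  base : ∀ n, x (n + 1) = x n + b
  step : ∀ n i, y (n + 1) i = val (x n) (y n) (F i)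
  ne : ∀ n, y n ≠ 0

/-- The sequence `(x n, y n)` is Zariski dense in `ℙ¹ × ℙ^m`. -/
def DenseSeq (x : ℕ → K) (y : ℕ → Fin (m + 1) → K) : Prop :=
  ∀ (t : ℕ) (G : MvPolynomial (Fin (m + 1)) (Polynomial K)), G.IsHomogeneous t →
    (∀ n, val (x n) (y n) G = 0) → G = 0

/-- The sequence `(x n, y n)` is contained in a closed subset of `𝔸¹ × ℙ^m` whose fibres over all
but finitely many points of `𝔸¹` are finite: any two homogeneous coordinates satisfy a nonzero
binary form with coefficients in `K[x]`. -/
def InCurve (x : ℕ → K) (y : ℕ → Fin (m + 1) → K) : Prop :=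
  ∀ i j : Fin (m + 1), ∃ (t : ℕ) (H : MvPolynomial (Fin 2) (Polynomial K)), H ≠ 0 ∧
    H.IsHomogeneous t ∧ ∀ n, val (m := 1) (x n) ![y n i, y n j] H = 0

/-- The degree of `f^n` as a rational self-map of `ℙ¹ × ℙ^m` with respect to `L = O (1, 1)`, that
is the intersection number of `(f^n)^* L` and `L^m`: if the fibre part of `f^n`, without common
factors, has degree `dx` in `x` and `dy` in `y`, it is `(1 + dx) + m dy`. -/
noncomputable def degIter (b : K)
    (F : Fin (m + 1) → MvPolynomial (Fin (m + 1)) (Polynomial K)) (n : ℕ) : ℕ :=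
  sInf {t | ∃ (dx dy : ℕ) (G : Fin (m + 1) → MvPolynomial (Fin (m + 1)) (Polynomial K)),
    G ≠ 0 ∧ (∀ i, (G i).IsHomogeneous dy) ∧ (∀ i u, ((G i).coeff u).natDegree ≤ dx) ∧
    (∀ i j, G i * iter b F n j = G j * iter b F n i) ∧ t = (1 + dx) + m * dy}

/-- The absolute logarithmic Weil height of the point `(x, [y])` of `ℙ¹ × ℙ^m` with respect to
`O (1, 1)`. -/
noncomputable def height [NumberField K] (x : K) (y : Fin (m + 1) → K) : ℝ :=
  (Height.logHeight₁ x + Height.logHeight y) / Module.finrank ℚ K

/-- For generic `x` the map `y ↦ F (x, y)` is an endomorphism of `ℙ^m`: the forms `F i` have no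
common zero, except the origin, over the algebraic closure of `K(x)`. -/
def NoCommonZero (F : Fin (m + 1) → MvPolynomial (Fin (m + 1)) (Polynomial K)) : Prop :=
  ∀ z : Fin (m + 1) → AlgebraicClosure (RatFunc K), (∀ i, aeval z (F i) = 0) → z = 0

/-- The degree in all variables `x, y`. -/
noncomputable def totDeg (G : MvPolynomial (Fin (m + 1)) (Polynomial K)) : ℕ :=
  G.support.sup fun u => (G.coeff u).natDegree + ∑ i, u i

/-- The degree of `f^n` as a polynomial self-map of `𝔸¹ × 𝔸^(m+1)`. -/
noncomputable def degIterA (b : K)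
    (F : Fin (m + 1) → MvPolynomial (Fin (m + 1)) (Polynomial K)) (n : ℕ) : ℕ :=
  max 1 (Finset.univ.sup fun i => totDeg (iter b F n i))

/-- The absolute logarithmic Weil height of the point `[1 : x : y]`. -/
noncomputable def heightA [NumberField K] (x : K) (y : Fin (m + 1) → K) : ℝ :=
  Height.logHeight (Fin.cons 1 (Fin.cons x y) : Fin (m + 3) → K) / Module.finrank ℚ K

/-- `y ↦ F (x, y)` is a family of polynomial automorphisms of `𝔸^(m+1)` over `K(x)`, of degree
`d ≥ 2`, with inverse `G (x, y) / r (x)` of degree `≤ d'`, `d' ≥ 2`, and it is regular: the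
indeterminacy locus at infinity of `F (x + b, ·)` (zeros of the forms of degree `d`) and that of
the inverse of `F (x, ·)` (zeros of the forms of degree `d'` of `G (x, ·)`) are disjoint over the
algebraic closure of `K(x)`. -/
structure RegularFamily (b : K) (d d' : ℕ)
    (F G : Fin (m + 1) → MvPolynomial (Fin (m + 1)) (Polynomial K)) (r : Polynomial K) :
    Prop where
  two_le : 2 ≤ d
  two_le' : 2 ≤ d'
  deg : ∀ i, (F i).totalDegree ≤ d
  top : ∃ i, homogeneousComponent d (F i) ≠ 0
  deg' : ∀ i, (G i).totalDegree ≤ d'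
  ne : r ≠ 0
  inv : ∀ i, bind₁ F (G i) = C r * X i
  reg : ∀ z : Fin (m + 1) → AlgebraicClosure (RatFunc K),
    (∀ i, aeval z (shift b (homogeneousComponent d (F i))) = 0) →
    (∀ i, aeval z (homogeneousComponent d' (G i)) = 0) → z = 0

end

end Pool.Agent.Work.MP_91e6de_nt.KS
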